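import Pool.Agent.Helper62.RS.LBDa

/-!
# RS-LBD: `L(s, ψ)` is bounded near `s = 1`
-/

namespace Pool.Agent.Helper62.RS

open NumberField Module IsDedekindDomain Pool.Agent.Helper38.RS

open Classical in
lemma tsum_sub_ite {β : Type} (P Q : β → Prop) (f : β → ℝ) :
    ∑' x : {x // P x}, (if Q x.1 then f x.1 else 0) = ∑' x : {x // P x ∧ Q x}, f x.1 := by
  have h1 := tsum_subtype {x | P x} (fun x => if Q x then f x else 0)
  have h2 := tsum_subtype {x | P x ∧ Q x} f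
  have h3 : Set.indicator {x | P x} (fun x => if Q x then f x else 0)
      = Set.indicator {x | P x ∧ Q x} f := by
    funext x
    by_cases hp : P x <;> by_cases hq : Q x <;> simp [Set.indicator, hp, hq]
  rw [h3, ← h2] at h1
  exact h1

lemma tsum_sub_le {β : Type} (P Q : β → Prop) (hPQ : ∀ x, Q x → P x) (f : β → ℝ)
    (hf : ∀ x, 0 ≤ f x) (hs : Summable fun x : {x // P x} => f x.1) :
    ∑' x : {x // Q x}, f x.1 ≤ ∑' x : {x // P x}, f x.1 := by
  let i0 : {x // Q x} → {x // P x} := fun x => ⟨x.1, hPQ x.1 x.2⟩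
  have hi0 : Function.Injective i0 := by
    intro x y hxy
    apply Subtype.ext
    exact congrArg (fun z : {x // P x} => z.1) hxy
  exact Summable.tsum_le_tsum_of_inj i0 hi0 (fun x _ => hf x.1) (fun x => le_rfl)
    (hs.comp_injective hi0) hs

variable {F : Type} [Field F] [NumberField F] {𝔪 : Ideal (𝓞 F)} {ψ : Ideal (𝓞 F) → ℝ}

lemma absNorm_one_le {c : Ideal (𝓞 F)} (hc : c ≠ ⊥) : (1 : ℝ) ≤ (Ideal.absNorm c : ℝ) := by
  have h : Ideal.absNorm c ≠ 0 := fun h => hc (Ideal.absNorm_eq_zero_iff.1 h)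
  exact_mod_cast Nat.one_le_iff_ne_zero.2 h

/-- the part of `L(s, ψ)` of one class -/
lemma class_part (h : IsPsi 𝔪 ψ) {c : Ideal (𝓞 F)} (hc : c ≠ ⊥) (hc' : c ⊔ 𝔪 = ⊤) (s : ℝ) :
    ∑' J : {J : Ideal (𝓞 F) // J ≠ ⊥ ∧ (J * c).IsPrincipal},
      ψ J.1 * (Ideal.absNorm J.1 : ℝ) ^ (-s) =
    ψ c * (Ideal.absNorm c : ℝ) ^ s *
      ∑' J : {J : Ideal (𝓞 F) // J ≠ ⊥ ∧ J ≤ c ∧ J.IsPrincipal},
        ψ J.1 * (Ideal.absNorm J.1 : ℝ) ^ (-s) := by
  have hN := absNorm_one_le hc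
  have hN0 : (0 : ℝ) < (Ideal.absNorm c : ℝ) := by linarith
  let e0 : {J : Ideal (𝓞 F) // J ≠ ⊥ ∧ (J * c).IsPrincipal} →
      {J : Ideal (𝓞 F) // J ≠ ⊥ ∧ J ≤ c ∧ J.IsPrincipal} :=
    fun J => ⟨J.1 * c, mul_ne_zero J.2.1 hc, Ideal.mul_le_right, J.2.2⟩
  have hbij : Function.Bijective e0 := by
    constructor
    · intro J J' hJ
      apply Subtype.ext
      have : J.1 * c = J'.1 * c := congrArg Subtype.val hJ
      exact mul_right_cancel₀ hc this
    · rintro ⟨J', hJ1, hJ2, hJ3⟩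
      obtain ⟨J, rfl⟩ := Ideal.dvd_iff_le.2 hJ2
      refine ⟨⟨J, ?_, ?_⟩, ?_⟩
      · rintro rfl
        exact hJ1 (by rw [Ideal.mul_bot])
      · rw [mul_comm]; exact hJ3
      · apply Subtype.ext
        show J * c = c * J
        rw [mul_comm]
  have htsum := (Equiv.ofBijective e0 hbij).tsum_eq
    (fun J : {J : Ideal (𝓞 F) // J ≠ ⊥ ∧ J ≤ c ∧ J.IsPrincipal} =>
      ψ J.1 * (Ideal.absNorm J.1 : ℝ) ^ (-s))
  rw [← htsum]
  have hterm : ∀ J : {J : Ideal (𝓞 F) // J ≠ ⊥ ∧ (J * c).IsPrincipal},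
      ψ ((Equiv.ofBijective e0 hbij) J).1 *
        (Ideal.absNorm ((Equiv.ofBijective e0 hbij) J).1 : ℝ) ^ (-s) =
      (ψ c * (Ideal.absNorm c : ℝ) ^ (-s)) * (ψ J.1 * (Ideal.absNorm J.1 : ℝ) ^ (-s)) := by
    intro J
    show ψ (J.1 * c) * (Ideal.absNorm (J.1 * c) : ℝ) ^ (-s) = _
    rw [h.mul, map_mul, Nat.cast_mul, Real.mul_rpow (by positivity) (by positivity)]
    ring
  rw [tsum_congr hterm, tsum_mul_left]
  have hψ2 : ψ c * ψ c = 1 := by
    rcases h.cop c hc hc' with h1 | h1 <;> rw [h1] <;> norm_num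
  have hNs : (Ideal.absNorm c : ℝ) ^ s * (Ideal.absNorm c : ℝ) ^ (-s) = 1 := by
    rw [← Real.rpow_add hN0]; simp
  calc _ = (ψ c * ψ c) * ((Ideal.absNorm c : ℝ) ^ s * (Ideal.absNorm c : ℝ) ^ (-s)) *
      ∑' J : {J : Ideal (𝓞 F) // J ≠ ⊥ ∧ (J * c).IsPrincipal},
        ψ J.1 * (Ideal.absNorm J.1 : ℝ) ^ (-s) := by rw [hψ2, hNs]; ring
    _ = _ := by ring

open Classical in
theorem s_lbd (h1 : S_UNF) (h2 : S_PAR) (h3 : S_REP) (h4 : S_ZET) :
    Pool.Agent.Helper38.RS.S_LBD := by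
  intro F _ _ _ 𝔪 ψ hψ
  obtain ⟨h, c, hc, hrep⟩ := h3 F 𝔪 hψ.ne
  obtain ⟨rep, hr0, hr1, hr2⟩ := exists_rep (F := F) hψ.ne
  set η : 𝓞 F → ℝ := fun α => ψ (Ideal.span {rep α}) with hη
  have hηp : ∀ α β, β ∈ 𝔪 → η (α + β) = η α := by
    intro α β hβ
    refine psi_congr hψ (hr0 _) (hr0 _) ?_
    have : rep (α + β) - rep α = (rep (α + β) - (α + β)) - (rep α - α) + β := by ring
    rw [this]
    exact add_mem (sub_mem (hr1 _) (hr1 _)) hβ
  have hη0 : ∀ α, α ≠ 0 → η α = ψ (Ideal.span {α}) := fun α hα => by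
    simp only [hη, hr2 α hα]
  set Λ : Ideal (𝓞 F) := 𝔪 * ∏ j, c j with hΛdef
  have hΛ : Λ ≠ ⊥ := mul_ne_zero hψ.ne (Finset.prod_ne_zero_iff.2 (fun j _ => (hc j).1))
  have hΛm : Λ ≤ 𝔪 := Ideal.mul_le_left
  have hΛc : ∀ j, Λ ≤ c j := fun j =>
    Ideal.mul_le_right.trans (Ideal.prod_le_inf.trans (Finset.inf_le (Finset.mem_univ j)))
  set ηj : Fin h → 𝓞 F → ℝ := fun j α => if α ∈ c j then η α else 0 with hηj
  have hηjp : ∀ j α β, β ∈ Λ → ηj j (α + β) = ηj j α := by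
    intro j α β hβ
    have hβc := hΛc j hβ
    have hiff : α + β ∈ c j ↔ α ∈ c j := Submodule.add_mem_iff_left _ hβc
    simp only [hηj, hiff, hηp α β (hΛm hβ)]
  set κ : ℝ := ∑ᶠ ρ : 𝓞 F ⧸ Λ, η (Function.surjInv Ideal.Quotient.mk_surjective ρ) with hκ
  have hκj : ∀ j, κ = (Ideal.absNorm (c j) : ℝ) * ∑ᶠ ρ : 𝓞 F ⧸ Λ,
      ηj j (Function.surjInv Ideal.Quotient.mk_surjective ρ) := by
    intro j
    refine sum_fib hΛ (hΛc j) η (fun α β hβ => hηp α β (hΛm hβ)) ?_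
    intro x
    have hx : x ∈ c j ⊔ 𝔪 := by rw [(hc j).2]; trivial
    obtain ⟨y, hy, m, hm, rfl⟩ := Submodule.mem_sup.1 hx
    exact ⟨m, by simpa using hy, fun α => hηp α m hm⟩
  choose Cp hCp using fun j => h2 F Λ hΛ (ηj j) (hηjp j)
  obtain ⟨Cz, hCz⟩ := h4 F
  -- norms
  have hN1 : ∀ j, (1 : ℝ) ≤ (Ideal.absNorm (c j) : ℝ) := fun j => absNorm_one_le (hc j).1
  have hψc : ∀ j, ψ (c j) = 1 ∨ ψ (c j) = -1 := fun j => hψ.cop _ (hc j).1 (hc j).2
  have hψabs : ∀ j, |ψ (c j)| = 1 := fun j => by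
    rcases hψc j with h | h <;> rw [h] <;> simp
  -- the sum over the classes is zero if κ is not
  have hsum0 : κ ≠ 0 → ∑ j, ψ (c j) = 0 := by
    intro hκ0
    obtain ⟨K, hK⟩ := sum_fib2 hΛ hΛm η hηp
    have hA : ∑ᶠ ρ : 𝓞 F ⧸ 𝔪, η (Function.surjInv Ideal.Quotient.mk_surjective ρ) ≠ 0 := by
      intro h0
      rw [h0, mul_zero] at hK
      exact hκ0 hK
    have hpr : ∀ β : 𝓞 F, β ≠ 0 → Ideal.span {β} ⊔ 𝔪 = ⊤ → ψ (Ideal.span {β}) = 1 := by
      intro β hβ hβm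
      have := sum_unit hψ.ne η hηp hβm (ψ (Ideal.span {β})) (by
        intro α
        show ψ (Ideal.span {rep (β * α)}) = _
        rw [hη]
        show _ = ψ (Ideal.span {β}) * ψ (Ideal.span {rep α})
        rw [← hψ.mul, Ideal.span_singleton_mul_span_singleton]
        refine psi_congr hψ (hr0 _) (mul_ne_zero hβ (hr0 _)) ?_
        have e : rep (β * α) - β * rep α = (rep (β * α) - β * α) - β * (rep α - α) := by ring
        rw [e]
        exact sub_mem (hr1 _) (Ideal.mul_mem_left _ _ (hr1 _)))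
      have h5 : (1 - ψ (Ideal.span {β})) *
          ∑ᶠ ρ : 𝓞 F ⧸ 𝔪, η (Function.surjInv Ideal.Quotient.mk_surjective ρ) = 0 := by
        rw [sub_mul, one_mul, ← this, sub_self]
      rcases mul_eq_zero.1 h5 with h6 | h6
      · linarith
      · exact absurd h6 hA
    have hprin : ∀ J : Ideal (𝓞 F), J ≠ ⊥ → J ⊔ 𝔪 = ⊤ → J.IsPrincipal → ψ J = 1 := by
      intro J hJ hJm hJp
      obtain ⟨β, rfl⟩ := hJp
      refine hpr β ?_ hJm
      rintro rfl
      simp at hJ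
    obtain ⟨I, hI⟩ := hψ.nontriv
    have hI0 : I ≠ ⊥ := by
      rintro rfl
      rw [hψ.zero] at hI
      norm_num at hI
    have hIm : I ⊔ 𝔪 = ⊤ := by
      by_contra hcon
      rw [hψ.ncop I hI0 hcon] at hI
      norm_num at hI
    choose r hr hruniq using fun j => hrep (I * c j) (mul_ne_zero hI0 (hc j).1)
    have hcopmul : ∀ A B : Ideal (𝓞 F), A ⊔ 𝔪 = ⊤ → B ⊔ 𝔪 = ⊤ → A * B ⊔ 𝔪 = ⊤ := by
      intro A B hA hB
      rw [← Ideal.isCoprime_iff_sup_eq] at hA hB ⊢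
      exact hA.mul_left hB
    have hrψ : ∀ j, ψ (c (r j)) = -ψ (c j) := by
      intro j
      have hp := hprin (I * c j * c (r j))
        (mul_ne_zero (mul_ne_zero hI0 (hc j).1) (hc (r j)).1)
        (hcopmul _ _ (hcopmul _ _ hIm (hc j).2) (hc (r j)).2) (hr j)
      rw [hψ.mul, hψ.mul, hI] at hp
      rcases hψc j with h' | h' <;> rw [h'] at hp ⊢ <;> linarith
    have hrinj : Function.Injective r := by
      intro j1 j2 hj
      obtain ⟨j0, -, huniq⟩ := hrep (I * c (r j1)) (mul_ne_zero hI0 (hc _).1)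
      have e1 : (I * c (r j1) * c j1).IsPrincipal := by
        have h9 : (I * c j1 * c (r j1)).IsPrincipal := hr j1
        rwa [mul_right_comm] at h9
      have e2 : (I * c (r j1) * c j2).IsPrincipal := by
        have h9 : (I * c j2 * c (r j2)).IsPrincipal := hr j2
        rw [← hj] at h9
        rwa [mul_right_comm] at h9
      exact (huniq j1 e1).trans (huniq j2 e2).symm
    have hrbij : Function.Bijective r := Finite.injective_iff_bijective.1 hrinj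
    have h7 : ∑ j, ψ (c j) = ∑ j, ψ (c (r j)) :=
      (Fintype.sum_bijective r hrbij _ _ (fun j => rfl)).symm
    have h8 : ∑ j, ψ (c (r j)) = -∑ j, ψ (c j) := by
      rw [← Finset.sum_neg_distrib]
      exact Finset.sum_congr rfl (fun j _ => hrψ j)
    linarith
  refine ⟨|κ| * Cz * ∑ j, (Ideal.absNorm (c j) : ℝ) +
    ∑ j, (Ideal.absNorm (c j) : ℝ) ^ (2 : ℝ) * Cp j, ?_⟩
  intro s hs1 hs2
  obtain ⟨-, hZ0, hZ1⟩ := hCz s hs1 hs2
  -- summability
  have hsumN : Summable (fun J : {J : Ideal (𝓞 F) // J ≠ ⊥} =>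
      (Ideal.absNorm J.1 : ℝ) ^ (-s)) := by
    by_contra hcon
    unfold Lf at hZ0
    simp only [one_mul] at hZ0
    rw [tsum_eq_zero_of_not_summable hcon] at hZ0
    exact lt_irrefl _ hZ0
  have hsumψ : Summable (fun J : {J : Ideal (𝓞 F) // J ≠ ⊥} =>
      ψ J.1 * (Ideal.absNorm J.1 : ℝ) ^ (-s)) := by
    refine Summable.of_norm_bounded hsumN (fun J => ?_)
    rw [Real.norm_eq_abs, abs_mul]
    have hp : (0 : ℝ) ≤ (Ideal.absNorm J.1 : ℝ) ^ (-s) := Real.rpow_nonneg (by positivity) _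
    rw [abs_of_nonneg hp]
    calc _ ≤ 1 * (Ideal.absNorm J.1 : ℝ) ^ (-s) :=
          mul_le_mul_of_nonneg_right (psi_abs hψ _) hp
      _ = _ := one_mul _
  -- T j
  set T : Fin h → ℝ := fun j => ∑' α : {α : 𝓞 F // α ≠ 0}, ηj j α.1 * gs s ((α.1 : 𝓞 F) : F)
    with hT
  set X : ℝ := ∑' α : {α : 𝓞 F // α ≠ 0 ∧ α ∈ Λ}, gs s ((α.1 : 𝓞 F) : F) with hX
  have hTj : ∀ j, ∑' J : {J : Ideal (𝓞 F) // J ≠ ⊥ ∧ J ≤ c j ∧ J.IsPrincipal},
        ψ J.1 * (Ideal.absNorm J.1 : ℝ) ^ (-s) = T j := by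
    intro j
    rw [← (h1 F s hs1 ψ (psi_abs hψ) (c j)).2]
    have := tsum_sub_ite (β := 𝓞 F) (fun α => α ≠ 0) (fun α => α ∈ c j)
      (fun α => ψ (Ideal.span {α}) * gs s (α : F))
    rw [← this, hT]
    refine tsum_congr (fun α => ?_)
    simp only [hηj]
    split_ifs with hα
    · rw [hη0 α.1 α.2]
    · simp
  have hL : Lf ψ s = ∑ j, ψ (c j) * (Ideal.absNorm (c j) : ℝ) ^ s * T j := by
    unfold Lf
    have hpt : ∀ J : {J : Ideal (𝓞 F) // J ≠ ⊥}, ψ J.1 * (Ideal.absNorm J.1 : ℝ) ^ (-s) =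
        ∑ j, (if (J.1 * c j).IsPrincipal then ψ J.1 * (Ideal.absNorm J.1 : ℝ) ^ (-s) else 0) := by
      intro J
      obtain ⟨j0, hj0, huniq⟩ := hrep J.1 J.2
      rw [Finset.sum_eq_single j0]
      · rw [if_pos hj0]
      · intro j _ hj
        rw [if_neg (fun hcon => hj (huniq j hcon))]
      · intro hcon; exact absurd (Finset.mem_univ _) hcon
    rw [tsum_congr hpt, Summable.tsum_finsetSum]
    · refine Finset.sum_congr rfl (fun j _ => ?_)
      rw [tsum_sub_ite (β := Ideal (𝓞 F)) (fun J => J ≠ ⊥) (fun J => (J * c j).IsPrincipal)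
        (fun J => ψ J * (Ideal.absNorm J : ℝ) ^ (-s)), class_part hψ (hc j).1 (hc j).2 s, hTj j]
    · intro j _
      refine Summable.of_norm_bounded hsumψ.norm (fun J => ?_)
      split_ifs
      · exact le_rfl
      · rw [norm_zero]; exact norm_nonneg _
  -- X
  have hXeq := (h1 F s hs1 (fun _ => 1) (by simp) Λ).2
  simp only [one_mul] at hXeq
  have hX0 : 0 ≤ X := by
    rw [hX, hXeq]
    exact tsum_nonneg (fun J => Real.rpow_nonneg (by positivity) _)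
  have hX1 : X ≤ Cz / (s - 1) := by
    refine le_trans ?_ hZ1
    unfold Lf
    simp only [one_mul]
    rw [hX, hXeq]
    exact tsum_sub_le (β := Ideal (𝓞 F)) (fun J => J ≠ ⊥)
      (fun J => J ≠ ⊥ ∧ J ≤ Λ ∧ J.IsPrincipal) (fun J hJ => hJ.1)
      (fun J => (Ideal.absNorm J : ℝ) ^ (-s)) (fun J => Real.rpow_nonneg (by positivity) _) hsumN
  have hs0 : 0 < s - 1 := by linarith
  have hXs : X * (s - 1) ≤ Cz := by rwa [le_div_iff₀ hs0] at hX1
  -- split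
  set E : Fin h → ℝ := fun j => T j - (∑ᶠ ρ : 𝓞 F ⧸ Λ,
    ηj j (Function.surjInv Ideal.Quotient.mk_surjective ρ)) * X with hE
  have hEb : ∀ j, |E j| ≤ Cp j := fun j => hCp j s hs1 hs2
  have hdec : Lf ψ s = κ * X * ∑ j, ψ (c j) * (Ideal.absNorm (c j) : ℝ) ^ (s - 1) +
      ∑ j, ψ (c j) * (Ideal.absNorm (c j) : ℝ) ^ s * E j := by
    rw [hL, Finset.mul_sum, ← Finset.sum_add_distrib]
    refine Finset.sum_congr rfl (fun j _ => ?_)
    have hp : (Ideal.absNorm (c j) : ℝ) ^ s =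
        (Ideal.absNorm (c j) : ℝ) ^ (s - 1) * (Ideal.absNorm (c j) : ℝ) := by
      have hN0 : (0 : ℝ) < (Ideal.absNorm (c j) : ℝ) := by linarith [hN1 j]
      rw [Real.rpow_sub_one hN0.ne', div_mul_cancel₀ _ hN0.ne']
    simp only [hE]
    rw [hp, hκj j]
    ring
  rw [hdec]
  refine (abs_add_le _ _).trans (add_le_add ?_ ?_)
  · by_cases hκ0 : κ = 0
    · rw [hκ0]
      simp
    · have hs := hsum0 hκ0
      have e1 : ∑ j, ψ (c j) * (Ideal.absNorm (c j) : ℝ) ^ (s - 1) =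
          ∑ j, ψ (c j) * ((Ideal.absNorm (c j) : ℝ) ^ (s - 1) - 1) := by
        have : ∑ j, ψ (c j) * ((Ideal.absNorm (c j) : ℝ) ^ (s - 1) - 1) =
            ∑ j, ψ (c j) * (Ideal.absNorm (c j) : ℝ) ^ (s - 1) - ∑ j, ψ (c j) := by
          rw [← Finset.sum_sub_distrib]
          refine Finset.sum_congr rfl (fun j _ => ?_)
          ring
        rw [this, hs, sub_zero]
      have e2 : |∑ j, ψ (c j) * ((Ideal.absNorm (c j) : ℝ) ^ (s - 1) - 1)| ≤
          (s - 1) * ∑ j, (Ideal.absNorm (c j) : ℝ) := by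
        rw [Finset.mul_sum]
        refine (Finset.abs_sum_le_sum_abs _ _).trans (Finset.sum_le_sum (fun j _ => ?_))
        rw [abs_mul, hψabs j, one_mul]
        have hge : 1 ≤ (Ideal.absNorm (c j) : ℝ) ^ (s - 1) :=
          Real.one_le_rpow (hN1 j) hs0.le
        rw [abs_of_nonneg (by linarith)]
        have hb := rpow_one_add_le_one_add_mul_self (s := (Ideal.absNorm (c j) : ℝ) - 1)
          (by linarith [hN1 j]) hs0.le (by linarith)
        rw [show (1 : ℝ) + ((Ideal.absNorm (c j) : ℝ) - 1) = (Ideal.absNorm (c j) : ℝ) by ring]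
          at hb
        nlinarith [hN1 j]
      rw [e1, abs_mul, abs_mul, abs_of_nonneg hX0]
      have hSN : 0 ≤ ∑ j, (Ideal.absNorm (c j) : ℝ) := Finset.sum_nonneg (fun j _ => by positivity)
      calc |κ| * X * |∑ j, ψ (c j) * ((Ideal.absNorm (c j) : ℝ) ^ (s - 1) - 1)|
          ≤ |κ| * X * ((s - 1) * ∑ j, (Ideal.absNorm (c j) : ℝ)) :=
            mul_le_mul_of_nonneg_left e2 (by positivity)
        _ = |κ| * (X * (s - 1)) * ∑ j, (Ideal.absNorm (c j) : ℝ) := by ring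
        _ ≤ |κ| * Cz * ∑ j, (Ideal.absNorm (c j) : ℝ) := by
            refine mul_le_mul_of_nonneg_right ?_ hSN
            exact mul_le_mul_of_nonneg_left hXs (abs_nonneg _)
  · refine (Finset.abs_sum_le_sum_abs _ _).trans (Finset.sum_le_sum (fun j _ => ?_))
    rw [abs_mul, abs_mul, hψabs j, one_mul]
    have hp : (0 : ℝ) ≤ (Ideal.absNorm (c j) : ℝ) ^ s := Real.rpow_nonneg (by positivity) _
    rw [abs_of_nonneg hp]
    refine mul_le_mul (Real.rpow_le_rpow_of_exponent_le (hN1 j) hs2) (hEb j) (abs_nonneg _) ?_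
    exact Real.rpow_nonneg (by positivity) _

end Pool.Agent.Helper62.RS
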