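import Pool.Agent.Helper38.RS.Goals3

/-!
# RS-LBD, part a: the character and the finite sums
-/

namespace Pool.Agent.Helper62.RS

open NumberField Module IsDedekindDomain Pool.Agent.Helper38.RS

variable {F : Type} [Field F] [NumberField F] {𝔪 : Ideal (𝓞 F)} {ψ : Ideal (𝓞 F) → ℝ}

lemma psi_top (h : IsPsi 𝔪 ψ) : ψ ⊤ = 1 := by
  have h1 := h.cop ⊤ top_ne_bot (by simp)
  have h2 := h.mul ⊤ ⊤
  rw [Ideal.top_mul] at h2
  rcases h1 with h1 | h1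
  · exact h1
  · rw [h1] at h2; norm_num at h2

lemma psi_abs (h : IsPsi 𝔪 ψ) (J : Ideal (𝓞 F)) : |ψ J| ≤ 1 := by
  by_cases hJ : J = ⊥
  · rw [hJ, h.zero]; simp
  · by_cases hc : J ⊔ 𝔪 = ⊤
    · rcases h.cop J hJ hc with h1 | h1 <;> rw [h1] <;> simp
    · rw [h.ncop J hJ hc]; simp

lemma exists_rep (h𝔪 : 𝔪 ≠ ⊥) : ∃ rep : 𝓞 F → 𝓞 F,
    (∀ α, rep α ≠ 0) ∧ (∀ α, rep α - α ∈ 𝔪) ∧ ∀ α, α ≠ 0 → rep α = α := by
  classical
  obtain ⟨n0, hn0, hn1⟩ := Submodule.exists_mem_ne_zero_of_ne_bot h𝔪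
  refine ⟨fun α => if α = 0 then n0 else α, fun α => ?_, fun α => ?_, fun α hα => ?_⟩
  · dsimp only
    split_ifs with h
    · exact hn1
    · exact h
  · dsimp only
    split_ifs with h
    · rw [h, sub_zero]; exact hn0
    · simp
  · simp [hα]

lemma exists_inv {α : 𝓞 F} (h : Ideal.span {α} ⊔ 𝔪 = ⊤) : ∃ a, α * a - 1 ∈ 𝔪 := by
  have h1 : (1 : 𝓞 F) ∈ Ideal.span {α} ⊔ 𝔪 := by rw [h]; trivial
  obtain ⟨y, hy, z, hz, hyz⟩ := Submodule.mem_sup.1 h1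
  obtain ⟨a, rfl⟩ := Ideal.mem_span_singleton'.1 hy
  refine ⟨a, ?_⟩
  have : α * a - 1 = -z := by rw [← hyz]; ring
  rw [this]
  exact neg_mem hz

lemma sup_congr' {α β : 𝓞 F} (hab : α - β ∈ 𝔪) :
    Ideal.span {α} ⊔ 𝔪 ≤ Ideal.span {β} ⊔ 𝔪 := by
  refine sup_le ?_ le_sup_right
  rw [Ideal.span_singleton_le_iff_mem]
  have : α = β + (α - β) := by ring
  rw [this]
  exact add_mem (Submodule.mem_sup_left (Ideal.mem_span_singleton_self β))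
    (Submodule.mem_sup_right hab)

lemma psi_congr (h : IsPsi 𝔪 ψ) {α β : 𝓞 F} (hα : α ≠ 0) (hβ : β ≠ 0) (hab : α - β ∈ 𝔪) :
    ψ (Ideal.span {α}) = ψ (Ideal.span {β}) := by
  have hsα : Ideal.span {α} ≠ (⊥ : Ideal (𝓞 F)) := by simpa using hα
  have hsβ : Ideal.span {β} ≠ (⊥ : Ideal (𝓞 F)) := by simpa using hβ
  have hba : β - α ∈ 𝔪 := by rw [← neg_sub]; exact neg_mem hab
  have hsup : Ideal.span {α} ⊔ 𝔪 = Ideal.span {β} ⊔ 𝔪 :=
    le_antisymm (sup_congr' hab) (sup_congr' hba)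
  by_cases hc : Ideal.span {α} ⊔ 𝔪 = ⊤
  · obtain ⟨a, ha⟩ := exists_inv hc
    obtain ⟨rep, hr0, hr1, -⟩ := exists_rep (F := F) h.ne
    set a' := rep a with ha'
    have h1 : α * a' - 1 ∈ 𝔪 := by
      have : α * a' - 1 = α * (a' - a) + (α * a - 1) := by ring
      rw [this]
      exact add_mem (Ideal.mul_mem_left _ _ (hr1 a)) ha
    have h2 : β * a' - 1 ∈ 𝔪 := by
      have : β * a' - 1 = (β - α) * a' + (α * a' - 1) := by ring
      rw [this]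
      exact add_mem (Ideal.mul_mem_right _ _ hba) h1
    have e1 := h.ray _ (mul_ne_zero hα (hr0 a)) h1
    have e2 := h.ray _ (mul_ne_zero hβ (hr0 a)) h2
    rw [← Ideal.span_singleton_mul_span_singleton, h.mul] at e1 e2
    have hne : ψ (Ideal.span {a'}) ≠ 0 := by
      intro h0
      rw [← ha', h0] at e1
      simp at e1
    exact mul_right_cancel₀ hne (e1.trans e2.symm)
  · rw [h.ncop _ hsα hc, h.ncop _ hsβ (by rw [← hsup]; exact hc)]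

/-- A function on `𝓞 F` which is periodic modulo `Λ` gives a function on the quotient. -/
lemma bar_mk {Λ : Ideal (𝓞 F)} {f : 𝓞 F → ℝ} (hf : ∀ α β, β ∈ Λ → f (α + β) = f α) (α : 𝓞 F) :
    f (Function.surjInv Ideal.Quotient.mk_surjective (Ideal.Quotient.mk Λ α)) = f α := by
  have h := Function.surjInv_eq (Ideal.Quotient.mk_surjective (I := Λ)) (Ideal.Quotient.mk Λ α)
  have h2 := Ideal.Quotient.eq.1 h
  have := hf α _ h2
  rwa [add_sub_cancel] at this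

lemma finq {Λ : Ideal (𝓞 F)} (hΛ : Λ ≠ ⊥) : Finite (𝓞 F ⧸ Λ) :=
  Λ.finiteQuotientOfFreeOfNeBot hΛ

open Classical in
lemma sum_fib {Λ c : Ideal (𝓞 F)} (hΛ : Λ ≠ ⊥) (hle : Λ ≤ c) (f : 𝓞 F → ℝ)
    (hf : ∀ α β, β ∈ Λ → f (α + β) = f α)
    (hm : ∀ x : 𝓞 F, ∃ m, x - m ∈ c ∧ ∀ α, f (α + m) = f α) :
    ∑ᶠ ρ : 𝓞 F ⧸ Λ, f (Function.surjInv Ideal.Quotient.mk_surjective ρ) =
      (Ideal.absNorm c : ℝ) * ∑ᶠ ρ : 𝓞 F ⧸ Λ,
        (if Function.surjInv Ideal.Quotient.mk_surjective ρ ∈ c then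
          f (Function.surjInv Ideal.Quotient.mk_surjective ρ) else 0) := by
  have hc : c ≠ ⊥ := fun h => hΛ (le_bot_iff.1 (h ▸ hle))
  haveI := finq hΛ
  haveI := finq hc
  letI : Fintype (𝓞 F ⧸ Λ) := Fintype.ofFinite _
  letI : Fintype (𝓞 F ⧸ c) := Fintype.ofFinite _
  rw [finsum_eq_sum_of_fintype, finsum_eq_sum_of_fintype]
  set g : 𝓞 F ⧸ Λ → ℝ := fun ρ => f (Function.surjInv Ideal.Quotient.mk_surjective ρ) with hg
  have hgm : ∀ α, g (Ideal.Quotient.mk Λ α) = f α := fun α => bar_mk hf α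
  set π : 𝓞 F ⧸ Λ →+* 𝓞 F ⧸ c := Ideal.Quotient.factor hle with hπ
  have hπm : ∀ α, π (Ideal.Quotient.mk Λ α) = Ideal.Quotient.mk c α := fun α =>
    Ideal.Quotient.factor_mk hle α
  have hfib : ∀ σ : 𝓞 F ⧸ c, ∑ ρ ∈ Finset.univ.filter (fun ρ => π ρ = σ), g ρ
      = ∑ ρ ∈ Finset.univ.filter (fun ρ => π ρ = 0), g ρ := by
    intro σ
    obtain ⟨x, rfl⟩ := Ideal.Quotient.mk_surjective σ
    obtain ⟨m, hm1, hm2⟩ := hm x
    have hx : Ideal.Quotient.mk c x = Ideal.Quotient.mk c m := Ideal.Quotient.eq.2 hm1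
    refine Finset.sum_bij' (fun ρ _ => ρ - Ideal.Quotient.mk Λ m)
      (fun ρ _ => ρ + Ideal.Quotient.mk Λ m) ?_ ?_ ?_ ?_ ?_
    · intro ρ hρ
      rw [Finset.mem_filter] at hρ ⊢
      refine ⟨Finset.mem_univ _, ?_⟩
      rw [map_sub, hρ.2, hπm, hx, sub_self]
    · intro ρ hρ
      rw [Finset.mem_filter] at hρ ⊢
      refine ⟨Finset.mem_univ _, ?_⟩
      rw [map_add, hρ.2, hπm, hx, zero_add]
    · intro ρ _; ring
    · intro ρ _; ring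
    · intro ρ _
      obtain ⟨α, rfl⟩ := Ideal.Quotient.mk_surjective ρ
      rw [← map_sub, hgm, hgm]
      have := hm2 (α - m)
      rw [sub_add_cancel] at this
      exact this
  have h1 : ∑ ρ, g ρ = ∑ σ : 𝓞 F ⧸ c, ∑ ρ ∈ Finset.univ.filter (fun ρ => π ρ = σ), g ρ :=
    (Finset.sum_fiberwise Finset.univ π g).symm
  have hcard : (Ideal.absNorm c : ℝ) = (Fintype.card (𝓞 F ⧸ c) : ℝ) := by
    rw [Ideal.absNorm_apply, Submodule.cardQuot_apply, Nat.card_eq_fintype_card]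
  rw [h1, Finset.sum_congr rfl (fun σ _ => hfib σ), Finset.sum_const, Finset.card_univ,
    nsmul_eq_mul, hcard]
  congr 1
  rw [Finset.sum_filter]
  refine Finset.sum_congr rfl (fun ρ _ => ?_)
  have hiff : π ρ = 0 ↔ Function.surjInv Ideal.Quotient.mk_surjective ρ ∈ c := by
    conv_lhs => rw [← Function.surjInv_eq (Ideal.Quotient.mk_surjective (I := Λ)) ρ, hπm]
    exact Ideal.Quotient.eq_zero_iff_mem
  simp only [hiff, hg]

open Classical in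
lemma sum_fib2 {Λ c : Ideal (𝓞 F)} (hΛ : Λ ≠ ⊥) (hle : Λ ≤ c) (f : 𝓞 F → ℝ)
    (hf : ∀ α β, β ∈ c → f (α + β) = f α) : ∃ K : ℝ,
    ∑ᶠ ρ : 𝓞 F ⧸ Λ, f (Function.surjInv Ideal.Quotient.mk_surjective ρ) =
      K * ∑ᶠ ρ : 𝓞 F ⧸ c, f (Function.surjInv Ideal.Quotient.mk_surjective ρ) := by
  have hc : c ≠ ⊥ := fun h => hΛ (le_bot_iff.1 (h ▸ hle))
  haveI := finq hΛ
  haveI := finq hc
  letI : Fintype (𝓞 F ⧸ Λ) := Fintype.ofFinite _
  letI : Fintype (𝓞 F ⧸ c) := Fintype.ofFinite _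
  set π : 𝓞 F ⧸ Λ →+* 𝓞 F ⧸ c := Ideal.Quotient.factor hle with hπ
  have hπm : ∀ α, π (Ideal.Quotient.mk Λ α) = Ideal.Quotient.mk c α := fun α =>
    Ideal.Quotient.factor_mk hle α
  refine ⟨((Finset.univ.filter (fun ρ => π ρ = 0)).card : ℝ), ?_⟩
  rw [finsum_eq_sum_of_fintype, finsum_eq_sum_of_fintype]
  set g : 𝓞 F ⧸ Λ → ℝ := fun ρ => f (Function.surjInv Ideal.Quotient.mk_surjective ρ) with hg
  have hgm : ∀ α, g (Ideal.Quotient.mk Λ α) = f α :=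
    fun α => bar_mk (fun α β hβ => hf α β (hle hβ)) α
  have hfib : ∀ σ : 𝓞 F ⧸ c, ∑ ρ ∈ Finset.univ.filter (fun ρ => π ρ = σ), g ρ
      = ((Finset.univ.filter (fun ρ => π ρ = 0)).card : ℝ) *
        f (Function.surjInv Ideal.Quotient.mk_surjective σ) := by
    intro σ
    obtain ⟨x, rfl⟩ := Ideal.Quotient.mk_surjective σ
    rw [bar_mk hf]
    have h2 : ∑ ρ ∈ Finset.univ.filter (fun ρ => π ρ = Ideal.Quotient.mk c x), g ρ
        = ∑ ρ ∈ Finset.univ.filter (fun ρ => π ρ = 0), f x := by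
      refine Finset.sum_bij' (fun ρ _ => ρ - Ideal.Quotient.mk Λ x)
        (fun ρ _ => ρ + Ideal.Quotient.mk Λ x) ?_ ?_ ?_ ?_ ?_
      · intro ρ hρ
        rw [Finset.mem_filter] at hρ ⊢
        refine ⟨Finset.mem_univ _, ?_⟩
        rw [map_sub, hρ.2, hπm, sub_self]
      · intro ρ hρ
        rw [Finset.mem_filter] at hρ ⊢
        refine ⟨Finset.mem_univ _, ?_⟩
        rw [map_add, hρ.2, hπm, zero_add]
      · intro ρ _; ring
      · intro ρ _; ring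
      · intro ρ hρ
        obtain ⟨α, rfl⟩ := Ideal.Quotient.mk_surjective ρ
        rw [Finset.mem_filter, hπm] at hρ
        rw [hgm]
        have h3 := Ideal.Quotient.eq.1 hρ.2
        have := hf x _ h3
        rw [add_sub_cancel] at this
        exact this
    rw [h2, Finset.sum_const, nsmul_eq_mul]
  have h1 : ∑ ρ, g ρ = ∑ σ : 𝓞 F ⧸ c, ∑ ρ ∈ Finset.univ.filter (fun ρ => π ρ = σ), g ρ :=
    (Finset.sum_fiberwise Finset.univ π g).symm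
  rw [h1, Finset.sum_congr rfl (fun σ _ => hfib σ), Finset.mul_sum]

lemma sum_unit (h𝔪 : 𝔪 ≠ ⊥) (f : 𝓞 F → ℝ) (hf : ∀ α β, β ∈ 𝔪 → f (α + β) = f α)
    {β : 𝓞 F} (hβ : Ideal.span {β} ⊔ 𝔪 = ⊤) (t : ℝ) (ht : ∀ α, f (β * α) = t * f α) :
    ∑ᶠ ρ : 𝓞 F ⧸ 𝔪, f (Function.surjInv Ideal.Quotient.mk_surjective ρ) =
      t * ∑ᶠ ρ : 𝓞 F ⧸ 𝔪, f (Function.surjInv Ideal.Quotient.mk_surjective ρ) := by
  haveI := finq h𝔪
  letI : Fintype (𝓞 F ⧸ 𝔪) := Fintype.ofFinite _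
  obtain ⟨a, ha⟩ := exists_inv hβ
  have hu : Ideal.Quotient.mk 𝔪 β * Ideal.Quotient.mk 𝔪 a = 1 := by
    rw [← map_mul, ← map_one (Ideal.Quotient.mk 𝔪)]
    exact Ideal.Quotient.eq.2 ha
  let u : (𝓞 F ⧸ 𝔪)ˣ := ⟨Ideal.Quotient.mk 𝔪 β, Ideal.Quotient.mk 𝔪 a, hu, by
    rw [mul_comm]; exact hu⟩
  rw [finsum_eq_sum_of_fintype]
  set g : 𝓞 F ⧸ 𝔪 → ℝ := fun ρ => f (Function.surjInv Ideal.Quotient.mk_surjective ρ) with hg
  have hgm : ∀ α, g (Ideal.Quotient.mk 𝔪 α) = f α := fun α => bar_mk hf α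
  calc ∑ ρ, g ρ = ∑ ρ, g (u * ρ) := (Fintype.sum_equiv (Units.mulLeft u) _ _ (fun ρ => rfl)).symm
    _ = ∑ ρ, t * g ρ := by
        refine Finset.sum_congr rfl (fun ρ _ => ?_)
        obtain ⟨α, rfl⟩ := Ideal.Quotient.mk_surjective ρ
        have : (u : 𝓞 F ⧸ 𝔪) * Ideal.Quotient.mk 𝔪 α = Ideal.Quotient.mk 𝔪 (β * α) := by
          rw [map_mul]
        rw [this, hgm, hgm, ht]
    _ = t * ∑ ρ, g ρ := by rw [Finset.mul_sum]

end Pool.Agent.Helper62.RS
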